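import Pool.Agent.H9.CA.Tool

/-! # DB: the definable closure is uniformly definable -/

set_option linter.unusedVariables false

open Ordinal Order Set
open scoped ZFSet

namespace CAA

open SF

theorem dcl_eq (N Y : V) : Dcl N Y = N.sep fun z => ∃ c ∈ CD, ∃ s ∈ Lw (Y ∩ N), ∀ x ∈ N,
    (ZFSet.pair x (ZFSet.pair x s) ∈ sS N ∅ c ↔ x = z) := by
  have key : ∀ (φ : Fml) (l : List V), (∀ p ∈ l, p ∈ N) → ∀ x ∈ N,
      (Sat (· ∈ N) φ (cons x fun i => l.getD i x) ↔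
        ZFSet.pair x (ZFSet.pair x (lc l)) ∈ sS N ∅ (cd φ)) := by
    intro φ l hl x hx
    have h1 : ZFSet.pair x (ZFSet.pair x (lc l)) = pl x (x :: l) := rfl
    have hl' : ∀ p ∈ x :: l, p ∈ N := by
      intro p hp
      rcases List.mem_cons.1 hp with rfl | hp
      · exact hx
      · exact hl p hp
    rw [h1, ← sat_iff_sS hx hl', getD_cons]
  unfold Dcl
  ext z
  rw [ZFSet.mem_sep, ZFSet.mem_sep]
  refine and_congr_right fun hz => ?_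
  constructor
  · rintro ⟨φ, l, hl, h⟩
    refine ⟨cd φ, cd_mem_CD φ, lc l, mem_Lw.2 ⟨l, fun p hp => ?_, rfl⟩, fun x hx => ?_⟩
    · exact ZFSet.mem_inter.2 (hl p hp)
    · rw [← key φ l (fun p hp => (hl p hp).2) x hx]
      exact h x hx
  · rintro ⟨c, hc, s, hs, h⟩
    obtain ⟨φ, rfl⟩ := mem_CD.1 hc
    obtain ⟨l, hl, rfl⟩ := mem_Lw.1 hs
    refine ⟨φ, l, fun p hp => ZFSet.mem_inter.1 (hl p hp), fun x hx => ?_⟩
    rw [key φ l (fun p hp => (ZFSet.mem_inter.1 (hl p hp)).2) x hx]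
    exact h x hx

theorem pf_DB : T_DB := by
  refine (Tm.sep (R := fun _ w => ∃ c ∈ CD, ∃ s ∈ Lw (w 2 ∩ w 1), ∀ x ∈ w 1,
    (ZFSet.pair x (ZFSet.pair x s) ∈ sS (w 1) ∅ c ↔ x = w 0)) ?_ (Tm.var 0)).congr
    fun M k v hv => (dcl_eq (v 0) (v 1)).symm
  refine (Dfb.bex (R := fun _ w => ∃ s ∈ Lw (w 3 ∩ w 2), ∀ x ∈ w 2,
    (ZFSet.pair x (ZFSet.pair x s) ∈ sS (w 2) ∅ (w 0) ↔ x = w 1)) ktr_zfm Tm.CD ?_).congr
    fun M k v hv => Iff.rfl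
  refine (Dfb.bex (R := fun _ w => ∀ x ∈ w 3,
    (ZFSet.pair x (ZFSet.pair x (w 0)) ∈ sS (w 3) ∅ (w 1) ↔ x = w 2)) ktr_zfm
    (Tm.Lw (Tm.inter (Tm.var 3) (Tm.var 2))) ?_).congr fun M k v hv => Iff.rfl
  refine (Dfb.ball (R := fun _ w =>
    (ZFSet.pair (w 0) (ZFSet.pair (w 0) (w 1)) ∈ sS (w 4) ∅ (w 2) ↔ w 0 = w 3)) ktr_zfm
    (Tm.var 3) ?_).congr fun M k v hv => Iff.rfl
  exact Dfb.iff (Dfb.mem (Tm.pair (Tm.var 0) (Tm.pair (Tm.var 0) (Tm.var 1)))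
    (Tm.sS (Tm.var 4) Tm.empty (Tm.var 2))) (Dfb.eq (Tm.var 0) (Tm.var 3))

end CAA
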