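import Pool.Agent.H9.CA.Tool
import Pool.Agent.H20.SF.FM

/-! # DS: the forcing toolkit -/

set_option linter.unusedVariables false

open Ordinal Order Set
open scoped ZFSet

namespace CAA

open SF

theorem ds_aux (hFC : T_FC) (hFH : T_FH) (φ : Fml) : Tm ZFm (fun M w =>
    (w 0).sep fun p => frc M (w 1) φ (cons (gn (w 0)) (fun i => ck (w 0) (w (i + 2)))) p) := by
  obtain ⟨-, -, -, -, -, hck, hgn, -, -⟩ := hFH
  refine (Tm.sep (R := fun M u =>
    frc M (u 2) φ (cons (gn (u 1)) (fun i => ck (u 1) (u (i + 3)))) (u 0)) ?_ (Tm.var 0)).congr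
    fun M k v hv => rfl
  refine ((hFC φ).comp (fun i => match i with
    | 0 => fun _ u => u 2
    | 1 => fun _ u => u 0
    | 2 => fun _ u => gn (u 1)
    | i + 3 => fun _ u => ck (u 1) (u (i + 3))) (fun i => ?_)).congr fun M k v hv => ?_
  · match i with
    | 0 => exact Tm.var 2
    | 1 => exact Tm.var 0
    | 2 => exact Tm.at1 (F := fun _ x => gn x) hgn (Tm.var 1)
    | i + 3 => exact Tm.at2 (F := fun _ x y => ck x y) hck (Tm.var 1) (Tm.var (i + 3))
  · have e : (fun i => (match i + 2 with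
        | 0 => fun _ u => u 2
        | 1 => fun _ u => u 0
        | 2 => fun _ u => gn (u 1)
        | i + 3 => fun _ u => ck (u 1) (u (i + 3)) : (V → Prop) → (ℕ → V) → V) M v) =
        cons (gn (v 1)) (fun i => ck (v 1) (v (i + 3))) := by
      funext i
      cases i <;> rfl
    rw [e]

theorem ispo_mem {c r p q : V} (h : IsPo c r) (hpq : ZFSet.pair p q ∈ r) : p ∈ c ∧ q ∈ c := by
  obtain ⟨p', hp', q', hq', he⟩ := h.sub _ hpq
  obtain ⟨rfl, rfl⟩ := ZFSet.pair_injective he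
  exact ⟨hp', hq'⟩

theorem pf_DS (hFC : T_FC) (hFD : T_FD) (hFG : T_FG) (hFH : T_FH) (hFI : T_FI) : T_DS := by
  intro R hR
  obtain ⟨φ, hφ⟩ := hR
  refine ⟨_, ds_aux hFC hFH φ, ?_⟩
  intro M c r v k hc hr hpo hv
  obtain ⟨-, hval, hgn, -, -, htck, htgn, -, -⟩ := hFH
  have e1 : ∀ p, p ∈ ((cons c (cons r v) 0).sep fun p => frc M (cons c (cons r v) 1) φ
      (cons (gn (cons c (cons r v) 0))
        (fun i => ck (cons c (cons r v) 0) (cons c (cons r v) (i + 2)))) p) ↔
      p ∈ c ∧ frc M r φ (cons (gn c) (fun i => ck c (v i))) p := by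
    intro p
    rw [ZFSet.mem_sep]
    rfl
  have hn : In M (cons (gn c) (fun i => ck c (v i))) := by
    refine In.cons (fun i => ?_) ?_
    · exact htck.1 M k (cons c fun _ => v i) (In.cons (fun _ => hv i) hc)
    · exact htgn.1 M k (fun _ => c) (fun _ => hc)
  have e2 : ∀ G, Gen M c r G →
      (fun i => val G (cons (gn c) (fun i => ck c (v i)) i)) = cons G v := by
    intro G hG
    funext i
    cases i with
    | zero => exact hgn c G hG.1.sub hG.1.ne
    | succ i => exact hval c G (v i) hG.1.sub hG.1.ne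
  have e3 : ∀ G, Gen M c r G → (Sat (Ext M G) φ (fun i => val G (cons (gn c)
      (fun i => ck c (v i)) i)) ↔ R (Ext M G) (cons G v)) := by
    intro G hG
    rw [e2 G hG]
    obtain ⟨h1, h2, h3⟩ := hFI M c r G k hc hr hpo hG
    exact hφ _ h1 _ (In.cons (fun i => h2 _ (hv i)) h3)
  refine ⟨⟨?_, ?_, ?_⟩, ?_, ?_⟩
  · intro p hp
    exact ((e1 p).1 hp).1
  · intro p hp q hqp
    rw [e1] at hp ⊢
    exact ⟨(ispo_mem hpo hqp).1, (hFD M c r hpo φ _).1 p q hp.2 hqp⟩
  · intro p hp h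
    rw [e1]
    refine ⟨hp, (hFD M c r hpo φ _).2 p hp fun q hqp => ?_⟩
    obtain ⟨q', hq', h'⟩ := h q hqp
    exact ⟨q', h', ((e1 q').1 hq').2⟩
  · intro G hG
    rw [← e3 G hG, hFG M c r G k hc hr hpo hG φ _ hn]
    refine exists_congr fun p => and_congr_right fun hp => ?_
    rw [e1]
    exact ⟨fun h => ⟨hG.1.sub hp, h⟩, fun h => h.2⟩
  · intro hM p hp
    rw [e1, SF.H20.fp hFD hFG SF.H20.fm M c r k hM hc hr hpo φ _ hn p hp]
    constructor
    · rintro ⟨-, h⟩ G hG hpG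
      rw [← e3 G hG]
      exact h G hG hpG
    · intro h
      refine ⟨hp, fun G hG hpG => ?_⟩
      rw [e3 G hG]
      exact h G hG hpG

end CAA
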