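import Pool.Agent.H1.CA.TarP

/-! # MB: `B_β` is a generic extension of `B_(β+1)` -/

set_option linter.unusedVariables false

open Ordinal Order Set
open scoped ZFSet

namespace CAA

open SF

namespace H86

/-- assignment with finitely many given values -/
def asg (l : List V) (d : V) : ℕ → V := fun i => l.getD i d

theorem in_asg {W : V → Prop} {l : List V} {d : V} (hl : ∀ x ∈ l, W x) (hd : W d) :
    In W (asg l d) := by
  intro i
  unfold asg
  rw [List.getD_eq_getElem?_getD]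
  cases h : l[i]? with
  | none => exact hd
  | some a => exact hl a (List.mem_of_getElem? h)

theorem mb_A {W : V → Prop} (hW : ZFm W) {κ t b A' a' H : V} (hκ : W κ) (ht : W t) (hb : W b)
    (hA' : W A') (ha' : W a') (hH : W H) :
    W (κ.sep fun i => (b ∈ fst (app t i) ∧ i ∈ A') ∨ (fst (app t i) = b ∧
      (snd (app t i) = ∅ ∨ (∃ j ∈ i, ∃ q, snd (app t i) = ZFSet.pair (nS 1) (ZFSet.pair j q) ∧
        b ∈ fst (app t j) ∧ ZFSet.pair j q ∈ a') ∨
      ∃ p ∈ H, snd (app t i) = ZFSet.pair (nS 2) p))) := by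
  have h1 : Tm ZFm (fun M v => (v 0).sep fun i => (v 2 ∈ fst (app (v 1) i) ∧ i ∈ v 3) ∨
      (fst (app (v 1) i) = v 2 ∧ (snd (app (v 1) i) = ∅ ∨
        (∃ j ∈ i, ∃ z ∈ v 4, z = ZFSet.pair j (snd z) ∧
          snd (app (v 1) i) = ZFSet.pair (nS 1) z ∧ v 2 ∈ fst (app (v 1) j)) ∨
        ∃ p ∈ v 5, snd (app (v 1) i) = ZFSet.pair (nS 2) p))) := by
    refine (Tm.sep (R := fun M w => (w 3 ∈ fst (app (w 2) (w 0)) ∧ w 0 ∈ w 4) ∨
      (fst (app (w 2) (w 0)) = w 3 ∧ (snd (app (w 2) (w 0)) = ∅ ∨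
        (∃ j ∈ w 0, ∃ z ∈ w 5, z = ZFSet.pair j (snd z) ∧
          snd (app (w 2) (w 0)) = ZFSet.pair (nS 1) z ∧ w 3 ∈ fst (app (w 2) j)) ∨
        ∃ p ∈ w 6, snd (app (w 2) (w 0)) = ZFSet.pair (nS 2) p))) ?_ (Tm.var 0)).congr
      fun M k v hv => rfl
    refine Dfb.or (Dfb.and (Dfb.mem (Tm.var 3) (Tm.fst (Tm.app (Tm.var 2) (Tm.var 0))))
      (Dfb.mem (Tm.var 0) (Tm.var 4))) (Dfb.and
      (Dfb.eq (Tm.fst (Tm.app (Tm.var 2) (Tm.var 0))) (Tm.var 3)) (Dfb.or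
      (Dfb.eq (Tm.snd (Tm.app (Tm.var 2) (Tm.var 0))) Tm.empty) (Dfb.or ?_ ?_)))
    · refine (Dfb.bex (R := fun M w => ∃ z ∈ w 6, z = ZFSet.pair (w 0) (snd z) ∧
          snd (app (w 3) (w 1)) = ZFSet.pair (nS 1) z ∧ w 4 ∈ fst (app (w 3) (w 0)))
        ktr_zfm (Tm.var 0) ?_).congr fun M k v hv => Iff.rfl
      refine (Dfb.bex (R := fun M w => w 0 = ZFSet.pair (w 1) (snd (w 0)) ∧
          snd (app (w 4) (w 2)) = ZFSet.pair (nS 1) (w 0) ∧ w 5 ∈ fst (app (w 4) (w 1)))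
        ktr_zfm (Tm.var 6) ?_).congr fun M k v hv => Iff.rfl
      exact Dfb.and (Dfb.eq (Tm.var 0) (Tm.pair (Tm.var 1) (Tm.snd (Tm.var 0)))) (Dfb.and
        (Dfb.eq (Tm.snd (Tm.app (Tm.var 4) (Tm.var 2))) (Tm.pair (Tm.nS 1) (Tm.var 0)))
        (Dfb.mem (Tm.var 5) (Tm.fst (Tm.app (Tm.var 4) (Tm.var 1)))))
    · refine (Dfb.bex (R := fun M w => snd (app (w 3) (w 1)) = ZFSet.pair (nS 2) (w 0))
        ktr_zfm (Tm.var 6) ?_).congr fun M k v hv => Iff.rfl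
      exact Dfb.eq (Tm.snd (Tm.app (Tm.var 3) (Tm.var 1))) (Tm.pair (Tm.nS 2) (Tm.var 0))
  have h2 := h1.1 W hW (asg [κ, t, b, A', a', H] κ) (in_asg (by
    intro x hx
    simp only [List.mem_cons, List.not_mem_nil, or_false] at hx
    rcases hx with rfl | rfl | rfl | rfl | rfl | rfl <;> assumption) hκ)
  have e : (κ.sep fun i => (b ∈ fst (app t i) ∧ i ∈ A') ∨ (fst (app t i) = b ∧
      (snd (app t i) = ∅ ∨ (∃ j ∈ i, ∃ q, snd (app t i) = ZFSet.pair (nS 1) (ZFSet.pair j q) ∧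
        b ∈ fst (app t j) ∧ ZFSet.pair j q ∈ a') ∨
      ∃ p ∈ H, snd (app t i) = ZFSet.pair (nS 2) p))) =
      κ.sep fun i => (b ∈ fst (app t i) ∧ i ∈ A') ∨
      (fst (app t i) = b ∧ (snd (app t i) = ∅ ∨
        (∃ j ∈ i, ∃ z ∈ a', z = ZFSet.pair j (snd z) ∧
          snd (app t i) = ZFSet.pair (nS 1) z ∧ b ∈ fst (app t j)) ∨
        ∃ p ∈ H, snd (app t i) = ZFSet.pair (nS 2) p)) := by
    ext i
    rw [ZFSet.mem_sep, ZFSet.mem_sep]
    refine and_congr_right fun _ => or_congr_right (and_congr_right fun _ =>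
      or_congr_right (or_congr_left ?_))
    refine exists_congr fun j => and_congr_right fun _ => ?_
    constructor
    · rintro ⟨q, h3, h4, h5⟩
      exact ⟨_, h5, by rw [snd_pair], h3, h4⟩
    · rintro ⟨z, h3, h4, h5, h6⟩
      refine ⟨snd z, ?_, h6, ?_⟩
      · rw [← h4]
        exact h5
      · rw [← h4]
        exact h3
  rw [e]
  exact h2

theorem mb_S {W : V → Prop} (hW : ZFm W) {A t b : V} (hA : W A) (ht : W t) (hb : W b) :
    W (A.sep fun i => fst (app t i) = b) := by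
  have h1 : Tm ZFm (fun M v => (v 0).sep fun i => fst (app (v 1) i) = v 2) :=
    (Tm.sep (R := fun M w => fst (app (w 2) (w 0)) = w 3)
      (Dfb.eq (Tm.fst (Tm.app (Tm.var 2) (Tm.var 0))) (Tm.var 3)) (Tm.var 0)).congr
      fun M k v hv => rfl
  exact h1.1 W hW (asg [A, t, b] A) (in_asg (by
    intro x hx
    simp only [List.mem_cons, List.not_mem_nil, or_false] at hx
    rcases hx with rfl | rfl | rfl <;> assumption) hA)

theorem mb_g {W : V → Prop} (hW : ZFm W) {q S a : V} (hq : W q) (hS : W S) (ha : W a) :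
    W (q.sep fun x => ∀ k ∈ S, ZFSet.pair k (app x k) ∈ a) := by
  have h1 : Tm ZFm (fun M v => (v 0).sep fun x => ∀ k ∈ v 1, ZFSet.pair k (app x k) ∈ v 2) := by
    refine (Tm.sep (R := fun M w => ∀ k ∈ w 2, ZFSet.pair k (app (w 0) k) ∈ w 3)
      ?_ (Tm.var 0)).congr fun M k v hv => rfl
    refine (Dfb.ball (R := fun M w => ZFSet.pair (w 0) (app (w 1) (w 0)) ∈ w 4)
      ktr_zfm (Tm.var 2) ?_).congr fun M k v hv => Iff.rfl
    exact Dfb.mem (Tm.pair (Tm.var 0) (Tm.app (Tm.var 1) (Tm.var 0))) (Tm.var 4)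
  exact h1.1 W hW (asg [q, S, a] q) (in_asg (by
    intro x hx
    simp only [List.mem_cons, List.not_mem_nil, or_false] at hx
    rcases hx with rfl | rfl | rfl <;> assumption) hq)

theorem mem_A {D : Dat} {G x : V} {β : Ordinal.{0}} : x ∈ D.A G β ↔ x ∈ D.κ.toZFSet ∧
    Ac D.tf (D.X G) (D.H G) x ∧ β.toZFSet ⊆ fst (app D.tf x) := by
  unfold Dat.A As
  exact ZFSet.mem_sep

theorem mem_a {D : Dat} {G z : V} {β : Ordinal.{0}} : z ∈ D.a G β ↔ z ∈ D.X G ∧ IsPr z ∧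
    fst z ∈ D.A G β := by
  unfold Dat.a aS
  exact ZFSet.mem_sep

theorem mem_S {D : Dat} {G x : V} {β : Ordinal.{0}} : x ∈ D.S G β ↔ x ∈ D.A G β ∧
    fst (app D.tf x) = β.toZFSet := by
  unfold Dat.S
  exact ZFSet.mem_sep

end H86

open H86

theorem pf_MB (hPB : T_PB) (hPC : T_PC) (hPF : T_PF) (hCE : T_CE) (hCF : T_CF) (hMA : T_MA)
    (hFN : T_FN) (hFI : T_FI) : T_MB := by
  intro D hD G hG β hβ
  obtain ⟨ρ', hρ1, hρ2, -⟩ := hD.grd.unbκ β hβ
  have hsβ : succ β < D.κ := (Order.succ_le_of_lt hρ1).trans_lt hρ2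
  obtain ⟨hCF1, hCF2⟩ := hCF D hD G hG
  obtain ⟨kB, haB, -, hMB, -, hoB, hminB, hHB, hAB, -⟩ := hCF1 β hβ
  obtain ⟨kB', haB', -, hMB', -, hoB', hminB', hHB', hAB', -⟩ := hCF1 (succ β) hsβ
  have hχθ : ∀ x ∈ LA ∅ D.χ, D.M x := fun x hx => Lh_mono hD.grd.χθ.le hx
  have htB' : D.tf ∈ D.B G (succ β) := hMB' _ (hχθ _ hD.tM)
  have hκB' : D.κ.toZFSet ∈ D.B G (succ β) :=
    (hoB' _).2 (hD.grd.κχ.trans hD.grd.χθ)
  have hβB' : β.toZFSet ∈ D.B G (succ β) :=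
    (hoB' _).2 (hβ.trans (hD.grd.κχ.trans hD.grd.χθ))
  have hAβ : D.A G β ∈ D.B G (succ β) := by
    rw [(hCE D hD G hG).2.2.2.2.2 β hβ]
    exact mb_A (W := fun x => x ∈ D.B G (succ β)) kB'.toZFm hκB' htB' hβB' hAB' haB' hHB'
  have hSB' : D.S G β ∈ D.B G (succ β) :=
    mb_S (W := fun x => x ∈ D.B G (succ β)) kB'.toZFm hAβ htB' hβB'
  have hSκ : D.S G β ⊆ D.κ.toZFSet := by
    intro x hx
    exact (mem_A.1 (mem_S.1 hx).1).1
  have hSA : ∀ k ∈ D.S G β, k ∉ D.A G (succ β) := by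
    intro k hk hk'
    have h1 : fst (app D.tf k) = β.toZFSet := (mem_S.1 hk).2
    have h2 : (succ β).toZFSet ⊆ fst (app D.tf k) := (mem_A.1 hk').2.2
    rw [h1] at h2
    have h3 := h2 (Ordinal.toZFSet_mem_toZFSet_iff.2 (Order.lt_succ β))
    exact lt_irrefl _ (Ordinal.toZFSet_mem_toZFSet_iff.1 h3)
  obtain ⟨hqc, hqr, hpo, hgen, hgeq⟩ := hMA D hD G hG (succ β) hsβ _ hSB' hSκ hSA
  -- the pairs in `a_β`
  have hmem : ∀ z, z ∈ D.a G β ↔ z ∈ D.X G ∧ IsPr z ∧ fst z ∈ D.A G β := fun z => mem_a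
  have hgB : Qs (D.S G β) G ∈ D.B G β := by
    have e : Qs (D.S G β) G = (D.qc G (D.S G β)).sep fun q => ∀ k ∈ D.S G β,
        ZFSet.pair k (app q k) ∈ D.a G β := by
      rw [hgeq]
      ext q
      rw [ZFSet.mem_sep, ZFSet.mem_sep]
      refine and_congr_right fun _ => forall_congr' fun k => imp_congr_right fun hk => ?_
      rw [hmem]
      refine ⟨fun h => ⟨h, ⟨_, _, rfl⟩, ?_⟩, fun h => h.1⟩
      rw [fst_pair]
      exact (mem_S.1 hk).1
    rw [e]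
    exact mb_g (W := fun x => x ∈ D.B G β) kB.toZFm (hCF2 β (succ β) (Order.le_succ β) hsβ hqc)
      (hCF2 β (succ β) (Order.le_succ β) hsβ hSB') haB
  refine ⟨hSB', hSκ, hSA, fun x => ⟨fun hx => ?_, fun hx => ?_⟩⟩
  · obtain ⟨kE, hBE, hgE⟩ := hFI _ _ _ _ kB'.toZFm hqc hqr hpo hgen
    refine hminB _ kE (fun x hx => hBE x (hMB' x hx)) ?_ x hx
    have e : D.a G β = D.a G (succ β) ∪ Xs (D.S G β) (Qs (D.S G β) G) := by
      ext z
      rw [ZFSet.mem_union]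
      have hX : ∀ z, z ∈ D.X G ↔ ∃ k ∈ D.κ.toZFSet, ∃ p ∈ G, z = ZFSet.pair k (app p k) := by
        intro z
        unfold Dat.X Xs
        rw [mem_imS]
        constructor
        · rintro ⟨y, hy, rfl⟩
          obtain ⟨k, hk, p, hp, rfl⟩ := ZFSet.mem_prod.1 hy
          exact ⟨k, hk, p, hp, by rw [fst_pair, snd_pair]⟩
        · rintro ⟨k, hk, p, hp, rfl⟩
          exact ⟨_, ZFSet.mem_prod.2 ⟨k, hk, p, hp, rfl⟩, by rw [fst_pair, snd_pair]⟩
      have hX' : z ∈ Xs (D.S G β) (Qs (D.S G β) G) ↔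
          ∃ k ∈ D.S G β, ∃ p ∈ G, z = ZFSet.pair k (app p k) := by
        unfold Xs
        rw [mem_imS]
        constructor
        · rintro ⟨y, hy, rfl⟩
          obtain ⟨k, hk, q, hq, rfl⟩ := ZFSet.mem_prod.1 hy
          unfold Qs at hq
          rw [mem_imS] at hq
          obtain ⟨p, hp, rfl⟩ := hq
          refine ⟨k, hk, p, hp, ?_⟩
          rw [fst_pair, snd_pair]
          have hsv : Svl p := ((hPF D hD).2.2.2.2.1 p (hG.1.sub hp)).1
          rw [((hPB.1 p (D.S G β) hsv).2 k).1 hk]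
        · rintro ⟨k, hk, p, hp, rfl⟩
          refine ⟨ZFSet.pair k (rst (D.S G β) p), ZFSet.mem_prod.2 ⟨k, hk, _, ?_, rfl⟩, ?_⟩
          · unfold Qs
            rw [mem_imS]
            exact ⟨p, hp, rfl⟩
          · rw [fst_pair, snd_pair]
            have hsv : Svl p := ((hPF D hD).2.2.2.2.1 p (hG.1.sub hp)).1
            rw [((hPB.1 p (D.S G β) hsv).2 k).1 hk]
      have hmem' : z ∈ D.a G (succ β) ↔ z ∈ D.X G ∧ IsPr z ∧ fst z ∈ D.A G (succ β) :=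
        mem_a
      rw [hmem, hmem', hX']
      constructor
      · rintro ⟨h1, h2, h3⟩
        obtain ⟨h4, h5, h6⟩ : fst z ∈ D.κ.toZFSet ∧ Ac D.tf (D.X G) (D.H G) (fst z) ∧
            β.toZFSet ⊆ fst (app D.tf (fst z)) := mem_A.1 h3
        obtain ⟨i, hi, hie⟩ := Ordinal.mem_toZFSet_iff.1 h4
        obtain ⟨b, hb, y, hy, hby⟩ := hD.tA i hi
        rw [← hie] at h6
        rw [hby, fst_pair] at h6
        have hβb : β ≤ b := by
          by_contra h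
          have h7 := h6 (Ordinal.toZFSet_mem_toZFSet_iff.2 (not_le.1 h))
          exact lt_irrefl _ (Ordinal.toZFSet_mem_toZFSet_iff.1 h7)
        rcases hβb.lt_or_eq with h | h
        · left
          refine ⟨h1, h2, mem_A.2 ⟨h4, h5, ?_⟩⟩
          rw [← hie, hby, fst_pair]
          intro w hw
          obtain ⟨c, hc, rfl⟩ := Ordinal.mem_toZFSet_iff.1 hw
          exact Ordinal.toZFSet_mem_toZFSet_iff.2 (hc.trans_le (Order.succ_le_of_lt h))
        · right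
          obtain ⟨k, hk, p, hp, rfl⟩ := (hX z).1 h1
          rw [fst_pair] at h3 hie
          refine ⟨k, mem_S.2 ⟨h3, ?_⟩, p, hp, rfl⟩
          rw [← hie, hby, fst_pair, h]
      · rintro (⟨h1, h2, h3⟩ | ⟨k, hk, p, hp, rfl⟩)
        · refine ⟨h1, h2, ?_⟩
          obtain ⟨h4, h5, h6⟩ : fst z ∈ D.κ.toZFSet ∧ Ac D.tf (D.X G) (D.H G) (fst z) ∧
            (succ β).toZFSet ⊆ fst (app D.tf (fst z)) := mem_A.1 h3
          refine mem_A.2 ⟨h4, h5, fun w hw => h6 ?_⟩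
          obtain ⟨c, hc, rfl⟩ := Ordinal.mem_toZFSet_iff.1 hw
          exact Ordinal.toZFSet_mem_toZFSet_iff.2 (hc.trans (Order.lt_succ β))
        · refine ⟨(hX _).2 ⟨k, hSκ hk, p, hp, rfl⟩, ⟨_, _, rfl⟩, ?_⟩
          rw [fst_pair]
          exact (mem_S.1 hk).1
    rw [e]
    have h1 : Tm ZFm (fun M v => v 0 ∪ Xs (v 1) (v 2)) :=
      Tm.union (Tm.var 0) (Tm.at2 (F := fun _ x y => Xs x y) hPC.2.2.2.2.2.2.1 (Tm.var 1)
        (Tm.var 2))
    exact h1.1 _ kE (asg [D.a G (succ β), D.S G β, Qs (D.S G β) G] (D.S G β)) (in_asg (by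
      intro x hx
      simp only [List.mem_cons, List.not_mem_nil, or_false] at hx
      rcases hx with rfl | rfl | rfl
      · exact hBE _ haB'
      · exact hBE _ hSB'
      · exact hgE) (hBE _ hSB'))
  · exact hFN (· ∈ D.B G (succ β)) (· ∈ D.B G β) _ kB.toZFm
      (fun y hy => hCF2 β (succ β) (Order.le_succ β) hsβ hy) hgB x hx

end CAA
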