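import Pool.Agent.H9.CA.TarQ

/-! # QB: the hierarchy `La` in `V_κ` -/

set_option linter.unusedVariables false

open Ordinal Order Set
open scoped ZFSet

namespace CAA

open SF

theorem rank_La (hDX : T_DX) (N : V → Prop) (α : Ordinal.{0}) : (La N α).rank ≤ α := by
  induction α using WellFoundedLT.induction with
  | ind α ih =>
    rw [ZFSet.rank_le_iff]
    intro x hx
    obtain ⟨β, hβ, hx⟩ := ((hDX N).2.2.2.2.2 α x).1 hx
    have h1 : x ⊆ La N β := by
      unfold DefA at hx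
      exact ZFSet.mem_powerset.1 (ZFSet.mem_sep.1 hx).1
    exact ((ZFSet.rank_mono h1).trans (ih β hβ)).trans_lt hβ

theorem pf_QB (hDM : T_DM) (hDO : T_DO) (hDW : T_DW) (hDX : T_DX) : T_QB := by
  intro M κ N hM hI hN
  obtain ⟨N', hMN, hN', hGd, hlim, -, -, -, hfun, -⟩ := hDO M κ hM hI
  obtain rfl : N' = N := ZFSet.ext fun x => (hN' x).trans (hN x).symm
  have k : ZFm M := hM.toZFm
  have hMord : ∀ α : Ordinal.{0}, α < κ → M α.toZFSet := fun α hα =>
    k.trans _ hI.mem _ (Ordinal.toZFSet_mem_toZFSet_iff.2 hα)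
  have hLaM : ∀ α : Ordinal.{0}, M α.toZFSet → M (La (· ∈ N') α) := by
    intro α hα
    have h1 := hDW.1 M k (cons N' fun _ => α.toZFSet) (In.cons (fun _ => hα) hMN)
    simp only [cons_zero] at h1
    have h2 : (cons N' (fun _ => α.toZFSet) 1) = α.toZFSet := rfl
    rw [h2, Ordinal.rank_toZFSet] at h1
    exact h1
  have hLaN : ∀ α < κ, La (· ∈ N') α ∈ N' := fun α hα =>
    (hN _).2 ⟨hLaM α (hMord α hα), (rank_La hDX _ α).trans_lt hα⟩
  have hsub : La (· ∈ N') κ ⊆ N' := by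
    intro x hx
    obtain ⟨β, hβ, hx⟩ := (hDX (· ∈ N')).2.2.1 κ hlim x hx
    exact hGd.tr.subset_of_mem (hLaN β hβ) hx
  -- the sequence
  have hH : M (resS κ.toZFSet fun x => La (· ∈ N') x.rank) := by
    have h1 : Tm ZFm (fun M v => resS (v 0) fun x => La (· ∈ v 1) x.rank) :=
      (Tm.resS (g := fun _ u => La (· ∈ u 2) (u 0).rank) (Tm.var 0)
        (hDW.rn fun i => if i = 0 then 2 else 0)).congr fun M k v hv => rfl
    exact h1.1 M k (cons κ.toZFSet fun _ => N') (In.cons (fun _ => hMN) hI.mem)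
  have happ : ∀ α < κ, app (resS κ.toZFSet fun x => La (· ∈ N') x.rank) α.toZFSet =
      La (· ∈ N') α := by
    intro α hα
    rw [app_resS (Ordinal.toZFSet_mem_toZFSet_iff.2 hα), Ordinal.rank_toZFSet]
  obtain ⟨-, -, hU1, hU2⟩ := hDM M hM κ _ (La (· ∈ N') κ) hH hI.mem hI.unc hlim
    (fun α hα => by rw [happ α hα]; exact (hDX _).2.1 α)
    (fun α hα => by
      rw [happ α hα, happ _ (hlim.succ_lt hα)]
      exact (hDX _).2.2.2.2.1 α)
    (fun α β hαβ hβ => by
      rw [happ α (hαβ.trans_lt hβ), happ β hβ]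
      exact (hDX _).1 α β hαβ)
    (fun γ hγ hγl x hx => by
      rw [happ γ hγ] at hx
      obtain ⟨β, hβ, hx⟩ := (hDX _).2.2.1 γ hγl x hx
      exact ⟨β, hβ, by rw [happ β (hβ.trans hγ)]; exact hx⟩)
    (fun α hα f hf hff => by
      rw [happ α hα] at hff ⊢
      exact hfun _ (hLaN α hα) f hf hff)
    (fun x => by
      constructor
      · intro hx
        obtain ⟨β, hβ, hx⟩ := (hDX _).2.2.1 κ hlim x hx
        exact ⟨β, hβ, by rw [happ β hβ]; exact hx⟩
      · rintro ⟨α, hα, hx⟩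
        rw [happ α hα] at hx
        exact (hDX _).1 α κ hα.le hx)
  refine ⟨hLaN, hsub, hU1, hU2, fun x hx => ?_⟩
  unfold LA at hx
  obtain ⟨β, hβ, hx⟩ := (mem_Lh_limit hlim).1 hx
  have h1 : ∅ ∈ La (· ∈ N') κ := by
    have := (hU2 0).2 hlim.bot_lt
    rwa [Ordinal.toZFSet_zero] at this
  exact hU1.trans _ (hU1.mLh h1 h1 ((hU2 β).2 hβ)) x hx

end CAA
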