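import Pool.Agent.H37.CA.Targets
import Pool.Agent.H37.CV.IE
import Pool.Agent.H28.RC.Targets3

/-! ALH: the Artin L-function of an induced character. -/

set_option autoImplicit false

open NumberField Complex Filter Topology

namespace Pool.Agent.H86.CA

open Pool.Agent.H37.CA Pool.Agent.H37.CV Pool.Agent.H28.RC Pool.Agent.H25 Pool.Agent.H25.HK

/-- a ray class character as a character modulo its conductor -/
theorem rcc_mem {F : Type} [Field F] [NumberField F] [IsTotallyComplex F] (χ : RCC F) :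
    χ.ψ ∈ Ch χ.f χ.f := by
  by_cases hf : χ.f = ⊤
  · refine ⟨RCC_PC χ, fun a b ha hb _ _ _ => ?_⟩
    rw [χ.princ a ha (by rw [hf]; trivial), χ.princ b hb (by rw [hf]; trivial),
      Pool.Agent.H37.CV.sg_one, Pool.Agent.H37.CV.sg_one]
  · exact mem_Ch_self hf (RCC_PC χ)

/-- the values of a ray class character are roots of unity of a fixed order -/
theorem rcc_val {F : Type} [Field F] [NumberField F] [IsTotallyComplex F] (χ : RCC F) :
    ∃ m : ℕ, 1 ≤ m ∧ ∀ I, χ.ψ I = 0 ∨ χ.ψ I ^ m = 1 := by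
  obtain ⟨e, he, hI⟩ := exists_pow χ.f χ.f χ.f_ne le_rfl
  refine ⟨e, he, fun I => ?_⟩
  by_cases h1 : I = ⊥
  · left
    rw [h1, χ.map_bot]
  by_cases h2 : I ⊔ χ.f = ⊤
  · right
    have h3 := Rl_eq (rcc_mem χ) (hI I h1 h2)
    have h4 : ∀ n : ℕ, χ.ψ (I ^ n) = χ.ψ I ^ n := by
      intro n
      induction n with
      | zero => rw [pow_zero, pow_zero, Ideal.one_eq_top, χ.map_one]
      | succ n ih => rw [pow_succ, χ.map_mul, ih, pow_succ]
    rw [h4, χ.map_one] at h3
    exact h3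
  · left
    exact χ.eq_zero I h2

theorem pf_ALH (hEUP : T_EUP) (hRC2 : T_RC2) (hFNR : T_FNR) (hTR : T_TR) : T_ALH := by
  intro L _ _ _ H lam χ B hTC hχ D V _ _ _ ρ hρ s hs
  obtain ⟨B', hB'⟩ := hRC2 L H lam χ B hχ
  obtain ⟨m, hm1, hm2⟩ := rcc_val χ
  obtain ⟨B0, hB0⟩ := hFNR (D.rep V ρ)
  let C : Cmp (D.rep V ρ) :=
    { N := 1, H := fun _ => H, χ := fun _ => χ, n := fun _ => 1, B := B0 ∪ B', m := m,
      m_pos := hm1, val := fun _ => hm2,
      good := by
        intro p hp k hk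
        rw [Finset.mem_union, not_or] at hp
        have hIn : (D.rep V ρ).In p = ⊥ := hB0 p hp.1
        have htr : LinearMap.trace ℂ (D.rep V ρ).V ((D.rep V ρ).fr p ^ k) =
            LinearMap.trace ℂ (D.rep V ρ).V ((D.rep V ρ).rho ((D.rep V ρ).Fr p ^ k)) := by
          rw [hTR (D.rep V ρ) p k hk, hIn,
            finsum_eq_single _ (1 : (⊥ : Subgroup ((D.rep V ρ).K ≃ₐ[ℚ] (D.rep V ρ).K)))
            (fun x hx => absurd (Subsingleton.elim x 1) hx)]
          simp
        rw [htr]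
        have h1 := hB' p p.2 hp.2 (D.P p) (D.P_prime p) (D.P_mem p) (D.Fr p) (D.Fr_spec p) k hk
        have h2 := hρ (D.Fr p ^ k)
        rw [Finset.sum_const, Finset.card_univ, Fintype.card_fin, one_smul]
        change LinearMap.trace ℂ V (ρ (D.Fr p ^ k)) = ((1 : ℤ) : ℂ) * spc χ p k
        rw [h1, Int.cast_one, one_mul]
        exact h2 }
  have h := hEUP (D.rep V ρ) C s hs
  have h2 : ∏ i, Lc (C.χ i) s ^ C.n i = Lc χ s := by
    change ∏ _i : Fin 1, Lc χ s ^ (1 : ℤ) = Lc χ s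
    simp
  rwa [h2] at h

end Pool.Agent.H86.CA
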